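import Pool.Agent.W_MP_6f8a18_al.Final

/-!
MP_6f8a18_al: case (a) for every finitely generated group which has a finite index subgroup `H`
with `ℚ ⊗ (H' / H'')` of infinite dimension over `ℚ`.
-/

set_option autoImplicit false

open Pool.Agent.W_MP_6f8a18_al
open scoped TensorProduct

namespace Pool.Agent.Results.MP_6f8a18_al.InfiniteRank

/-- Let `Γ` be a finitely generated group with a subgroup `H` of finite index such that
`ℚ ⊗ (H' / H'')` is infinite dimensional. Then the lower normal limit of `d_p` is infinite for all
primes `p` outside a finite set. -/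
theorem result :
    ∀ (Γ : Type*) [Group Γ] [Group.FG Γ] (H : Subgroup Γ), H.FiniteIndex →
      ¬ Module.Finite ℚ (ℚ ⊗[ℤ] Additive (Abelianization (commutator H))) →
      ∃ S : Finset ℕ, ∀ p : ℕ, p.Prime → p ∉ S → NL p Γ = ⊤ := by
  intro Γ _ _ H hH hr
  exact NL_eq_top Γ H hH fun h => hr (finite_tensor_of_finRk _ h)

end Pool.Agent.Results.MP_6f8a18_al.InfiniteRank
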