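import Pool.Agent.W_MP_6f8a18_al.RatEmb

/-!
MP_6f8a18_al: every finitely generated linear group of characteristic zero satisfies (a) or is
isomorphic to a subgroup of `GL_m(ℚ)` for some `m`.
-/

set_option autoImplicit false

open Pool.Agent.W_MP_6f8a18_al

namespace Pool.Agent.Results.MP_6f8a18_al.RationalEmbedding

/-- Let `Γ` be a finitely generated subgroup of `GL_n(K)`, `K` a field of characteristic zero. Then
the lower normal limit of `d_p` of `Γ` is infinite for almost all primes `p`, or `Γ` embeds in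
`GL_m(ℚ)` for some `m`. -/
theorem result :
    ∀ (K : Type*) [Field K] [CharZero K] (n : ℕ) (Γ : Subgroup (GL (Fin n) K)), Group.FG Γ →
      (∃ S : Finset ℕ, ∀ p : ℕ, p.Prime → p ∉ S → NL p Γ = ⊤) ∨
      ∃ (m : ℕ) (f : Γ →* GL (Fin m) ℚ), Function.Injective f := by
  intro K _ _ n Γ hΓ
  exact ratEmb K n Γ hΓ

end Pool.Agent.Results.MP_6f8a18_al.RationalEmbedding
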