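import Pool.Agent.W_MP_6f8a18_al.Trans

/-!
MP_6f8a18_al: a finitely generated group with a finite index subgroup acting absolutely irreducibly
by automorphisms on a Lie algebra with nondegenerate Killing form, some element having a
transcendental trace, satisfies (a).
-/

set_option autoImplicit false

open Pool.Agent.W_MP_6f8a18_al

namespace Pool.Agent.Results.MP_6f8a18_al.TranscendentalTrace

/-- Let `Γ` be a finitely generated group, `H` a subgroup of finite index which acts linearly and by
Lie algebra automorphisms on a finite dimensional Lie algebra `L` over a field `K` of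
characteristic zero with nondegenerate Killing form, such that the operators of `H` span the space
of all endomorphisms of `L`. If some element of `H` acts with a trace transcendental over `ℚ`,
then the lower normal limit of `d_p` of `Γ` is infinite for almost all primes `p`. -/
theorem result :
    ∀ (K : Type*) [Field K] [CharZero K] (L : Type*) [LieRing L] [LieAlgebra K L]
      [Module.Finite K L] [LieAlgebra.IsKilling K L] (Γ : Type*) [Group Γ] [Group.FG Γ]
      (H : Subgroup Γ) [H.FiniteIndex] (ρ : Representation K H L),
      (∀ g x y, ρ g ⁅x, y⁆ = ⁅ρ g x, ρ g y⁆) → Submodule.span K (Set.range ρ) = ⊤ →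
      (∃ g : H, Transcendental ℚ (LinearMap.trace K L (ρ g))) →
      ∃ S : Finset ℕ, ∀ p : ℕ, p.Prime → p ∉ S → NL p Γ = ⊤ := by
  intro K _ _ L _ _ _ _ Γ _ _ H _ ρ hρ hspan ⟨g₀, ht⟩
  exact transcendental_trace K L Γ H ρ hρ hspan g₀ ht

end Pool.Agent.Results.MP_6f8a18_al.TranscendentalTrace
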