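import Pool.Agent.W_MP_6f8a18_al.UpperMain

/-!
MP_6f8a18_al: the alternative of Q1 for every finitely generated virtually solvable linear group.
-/

set_option autoImplicit false

open Pool.Agent.W_MP_6f8a18_al

namespace Pool.Agent.Results.MP_6f8a18_al.VirtuallySolvable

/-- Every finitely generated virtually solvable linear group `Γ` (over any field) satisfies at least
one of the conditions (a), (b) of Q1: the lower normal limit of `d_p` is infinite for almost all
primes `p`, or it is bounded by a constant for almost all primes `p`. -/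
theorem result :
    ∀ (K : Type*) [Field K] (n : ℕ) (Γ : Subgroup (GL (Fin n) K)), Group.FG Γ →
      (∃ H : Subgroup Γ, H.FiniteIndex ∧ Group.IsSolvable H) →
      (∃ S : Finset ℕ, ∀ p : ℕ, p.Prime → p ∉ S → NL p Γ = ⊤) ∨
      ∃ (C : ℕ) (S : Finset ℕ), ∀ p : ℕ, p.Prime → p ∉ S → NL p Γ ≤ C := by
  intro K _ n Γ hΓ hH
  obtain ⟨H, hH, hs⟩ := hH
  obtain ⟨H', hH', hn⟩ := malcev_virtual K n Γ Γ.subtype Subtype.val_injective H hH hs
  exact dichotomy Γ H' hH' hn

end Pool.Agent.Results.MP_6f8a18_al.VirtuallySolvable
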